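import Mathlib
import Pool.Agent.N964.GW.Stm

set_option autoImplicit false

/-!
# Project GW: the left edge (`S_ledge`)
-/

namespace Pool.Agent.N186.GW

open Complex MeasureTheory Set
open Pool.Agent.N964.GW
open Pool.Agent.Y23 (Lg)
open Pool.Agent.W354 (LogC)
open Y767.WH (GoodH)

theorem arctan_le_self {x : ℝ} (hx : 0 ≤ x) : Real.arctan x ≤ x := by
  have h := Real.le_tan (Real.arctan_nonneg.2 hx) (Real.arctan_lt_pi_div_two x)
  rwa [Real.tan_arctan] at h

theorem tail_right {a T : ℝ} (hT : 0 < T) (ha : T ≤ a) :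
    Real.pi / 2 - Real.arctan a ≤ 1 / T := by
  have h1 : Real.arctan T ≤ Real.arctan a := Real.arctan_le_arctan_iff.2 ha
  have h2 := Real.arctan_inv_of_pos hT
  have h3 := arctan_le_self (inv_nonneg.2 hT.le)
  rw [one_div]
  linarith

theorem tail_left {a T : ℝ} (hT : 0 < T) (ha : a ≤ -T) :
    Real.arctan a + Real.pi / 2 ≤ 1 / T := by
  have h1 := tail_right hT (by linarith : T ≤ -a)
  rw [Real.arctan_neg] at h1
  linarith

/-- the real part of the integral over an interval which contains `[-T, T]` -/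
theorem re_int {f : ℝ → ℂ} {K T a b : ℝ} (hT : 0 < T) (ha : a ≤ -T) (hb : T ≤ b)
    (hf : Integrable f) (hK : ∀ y, ‖f y‖ ≤ K * (1 + y ^ 2)⁻¹) (hK0 : 0 ≤ K) :
    (∫ y in a..b, f y).re ≤ (∫ y, f y).re + 2 * K / T := by
  have h1 := intervalIntegral.integral_Iic_sub_Iic (a := a) (b := b) (μ := volume)
    hf.integrableOn hf.integrableOn
  have h2 := intervalIntegral.integral_Iic_add_Ioi (b := b) (μ := volume)
    hf.integrableOn hf.integrableOn
  have h3 : ‖∫ y in Iic a, f y‖ ≤ K * (1 / T) := by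
    have := norm_integral_le_of_norm_le (μ := volume.restrict (Iic a)) (f := f)
      ((integrable_inv_one_add_sq.const_mul K).integrableOn)
      (Filter.Eventually.of_forall fun y => hK y)
    refine this.trans ?_
    rw [integral_const_mul, integral_Iic_inv_one_add_sq]
    exact mul_le_mul_of_nonneg_left (by linarith [tail_left hT ha]) hK0
  have h4 : ‖∫ y in Ioi b, f y‖ ≤ K * (1 / T) := by
    have := norm_integral_le_of_norm_le (μ := volume.restrict (Ioi b)) (f := f)
      ((integrable_inv_one_add_sq.const_mul K).integrableOn)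
      (Filter.Eventually.of_forall fun y => hK y)
    refine this.trans ?_
    rw [integral_const_mul, integral_Ioi_inv_one_add_sq]
    exact mul_le_mul_of_nonneg_left (tail_right hT hb) hK0
  have h5 := (Complex.abs_re_le_norm (∫ y in Iic a, f y)).trans h3
  have h6 := (Complex.abs_re_le_norm (∫ y in Ioi b, f y)).trans h4
  have h7 := congrArg Complex.re h1
  have h8 := congrArg Complex.re h2
  rw [Complex.sub_re] at h7
  rw [Complex.add_re] at h8
  have h9 := neg_le_of_abs_le h5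
  have h10 := neg_le_of_abs_le h6
  have h11 : 2 * K / T = K * (1 / T) + K * (1 / T) := by ring
  rw [h11]
  linarith

theorem summ : Summable fun n : ℕ => ArithmeticFunction.vonMangoldt n * (n : ℝ) ^ (-(5 / 4) : ℝ) := by
  have h := (ArithmeticFunction.LSeriesSummable_vonMangoldt (s := ((5 / 4 : ℝ) : ℂ))
    (by rw [Complex.ofReal_re]; norm_num)).norm
  refine h.congr fun n => ?_
  rcases Nat.eq_zero_or_pos n with rfl | hn
  · simp
  · rw [LSeries.term_of_ne_zero hn.ne', norm_div, Complex.norm_natCast_cpow_of_pos hn,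
      Complex.ofReal_re, Real.rpow_neg (Nat.cast_nonneg n), Complex.norm_real, Real.norm_eq_abs,
      abs_of_nonneg ArithmeticFunction.vonMangoldt_nonneg]
    rfl

theorem ld_bound {k : ℕ} {A κ : ℝ} {lc : ℝ → ℝ} {F : ℂ → ℂ} {a : ℕ → ℂ} (H : LG k A lc F a κ)
    (s : ℂ) (hs : 5 / 4 ≤ s.re) (hs1 : 1 ≤ s.im) :
    ‖deriv F s / F s‖ ≤
      ∑' n : ℕ, k * (ArithmeticFunction.vonMangoldt n * (n : ℝ) ^ (-(5 / 4) : ℝ)) := by
  rw [H.good.ld s (by linarith) hs1, norm_neg]
  refine tsum_of_norm_bounded (summ.mul_left (k : ℝ)).hasSum fun n => ?_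
  rcases Nat.eq_zero_or_pos n with rfl | hn
  · rw [H.good.ha1 0 (by norm_num)]
    simp
  · rw [norm_mul, Complex.norm_natCast_cpow_of_pos hn, ← mul_assoc]
    have h1 := H.ram n
    have h2 : (n : ℝ) ^ (-s).re ≤ (n : ℝ) ^ (-(5 / 4) : ℝ) :=
      Real.rpow_le_rpow_of_exponent_le (by exact_mod_cast hn) (by rw [Complex.neg_re]; linarith)
    exact mul_le_mul h1 h2 (by positivity)
      (mul_nonneg (Nat.cast_nonneg k) ArithmeticFunction.vonMangoldt_nonneg)

theorem Lg_log {t v : ℝ} (ht : 4 ≤ t) (h1 : t / 2 - 1 ≤ v) (h2 : v ≤ 3 * t / 2 + 1) :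
    |Real.log v - Lg t| ≤ 3 := by
  unfold Lg
  rw [abs_of_nonneg (by linarith : 0 ≤ t)]
  have hv : 0 < v := by linarith
  have e8 : Real.log 8 ≤ 3 := by
    have : Real.log 8 = 3 * Real.log 2 := by
      rw [show (8 : ℝ) = 2 ^ 3 by norm_num, Real.log_pow]; norm_num
    rw [this]
    linarith [Real.log_two_lt_d9]
  rw [abs_le]
  constructor
  · have h3 : Real.log (3 + t) ≤ Real.log (8 * v) :=
      Real.log_le_log (by linarith) (by linarith)
    rw [Real.log_mul (by norm_num) hv.ne'] at h3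
    linarith
  · have h3 : Real.log v ≤ Real.log (8 * (3 + t)) :=
      Real.log_le_log hv (by linarith)
    rw [Real.log_mul (by norm_num) (by linarith)] at h3
    linarith

theorem c0_nonneg {l s : ℝ} (hl : 1 ≤ l) (hs : 0 < s) : 0 ≤ c0 l s := by
  unfold c0
  have hx : 0 < l * s := by positivity
  have h1 : 0 < Real.cosh (l * s) - 1 := by
    have := Real.one_lt_cosh.2 hx.ne'
    linarith
  rw [sub_nonneg, le_div_iff₀ h1, one_mul, Real.cosh_eq, Real.sinh_eq]
  have h2 : Real.exp (-(l * s)) ≤ 1 := Real.exp_le_one_iff.2 (by linarith)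
  linarith

theorem ledge_of (h1 : S_bd) (h2 : S_left) : S_ledge := by
  obtain ⟨C₁, hC₁, hbd⟩ := h1
  intro k A lc F a κ H
  set B : ℝ := ∑' n : ℕ, k * (ArithmeticFunction.vonMangoldt n * (n : ℝ) ^ (-(5 / 4) : ℝ)) with hB
  have hlc1 : 0 ≤ lc 1 := by simpa using H.hlc.low 1 le_rfl
  have hB0 : 0 ≤ B := tsum_nonneg fun n => mul_nonneg (Nat.cast_nonneg k)
    (mul_nonneg ArithmeticFunction.vonMangoldt_nonneg (by positivity))
  have hk0 : (0 : ℝ) ≤ k := Nat.cast_nonneg k
  set M : ℝ := A + B + k * (3 + lc 1) with hM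
  have hM0 : 0 ≤ M := by have := H.hA; positivity
  refine ⟨2 * C₁ * (2 * k + M) + 1, by positivity, ?_⟩
  intro t s l V1 V2 ht hs hs1 hl hlt hV1 hV2
  have hc0 := c0_nonneg hl hs
  have hls : 0 < 1 / (l ^ 2 * s) := by positivity
  set Q : ℝ := c0 l s + 1 / (l ^ 2 * s) with hQ
  have hQ0 : 0 < Q := by positivity
  have hLg0 : 0 ≤ Lg t := by
    unfold Lg
    exact Real.log_nonneg (by linarith [abs_nonneg t])
  have hRHS : 0 ≤ k * Lg t / 2 * c0 l s + (2 * C₁ * (2 * k + M) + 1) * Q := by positivity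
  set f : ℝ → ℂ := fun y => H2 l s κ (-(5 / 4) + y * I) with hf
  obtain ⟨hint, hre⟩ := h2 l s κ hl hs hs1 H.hκ0 H.hκ1.le
  -- the size of the kernel
  have hK : ∀ y, ‖f y‖ ≤ (2 * C₁ * Q) * (1 + y ^ 2)⁻¹ := by
    intro y
    have e1 : (-(5 / 4) + (y : ℂ) * I).re = -(5 / 4) := by
      simp
    have e2 : (-(5 / 4) + (y : ℂ) * I).im = y := by
      simp
    have h3 := hbd l s κ (-(5 / 4) + y * I) hl hs hs1 H.hκ0 H.hκ1.le
      (by rw [e1, abs_neg, abs_of_pos] <;> norm_num)
      (Or.inl (by rw [e1, abs_neg, abs_of_pos]; norm_num))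
    rw [e1, e2] at h3
    refine h3.trans ?_
    rw [div_eq_mul_inv]
    refine mul_le_mul_of_nonneg_right ?_ (by positivity)
    have h4 : Real.exp (l * -(5 / 4)) ≤ 1 := Real.exp_le_one_iff.2 (by linarith)
    have h5 : (1 + Real.exp (l * -(5 / 4))) / (l ^ 2 * s) ≤ 2 * (1 / (l ^ 2 * s)) := by
      rw [mul_one_div]
      exact div_le_div_of_nonneg_right (by linarith) (by positivity)
    have h6 : c0 l s + (1 + Real.exp (l * -(5 / 4))) / (l ^ 2 * s) ≤ 2 * Q := by
      rw [hQ]; linarith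
    calc C₁ * (c0 l s + (1 + Real.exp (l * -(5 / 4))) / (l ^ 2 * s)) ≤ C₁ * (2 * Q) :=
          mul_le_mul_of_nonneg_left h6 hC₁.le
      _ = 2 * C₁ * Q := by ring
  have hK0 : 0 ≤ 2 * C₁ * Q := by positivity
  set D : ℝ → ℂ := fun v => deriv F (κ - 3 / 4 + v * I) / F (κ - 3 / 4 + v * I) with hD
  have hVle : V1 ≤ V2 := by have := hV1.2; have := hV2.1; linarith
  -- the logarithmic derivative
  have hE : ∀ v ∈ Ioc V1 V2, ‖D v + ((k * Lg t : ℝ) : ℂ)‖ ≤ M := by
    intro v hv
    have hv1 : 1 ≤ v := by have := hV1.1; have := hv.1; linarith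
    set z : ℂ := κ - 3 / 4 + v * I with hz
    have ez1 : z.re = κ - 3 / 4 := by simp [hz]
    have ez2 : z.im = v := by simp [hz]
    have hκ0 := H.hκ0
    have hκ1 := H.hκ1
    have hz0 : F z ≠ 0 := H.good.nzl z (by rw [ez1]; linarith) (by rw [ez2]; exact hv1)
    have h3 := H.good.left z (by rw [ez1]; linarith) (by rw [ez1]; linarith)
      (by rw [ez2]; exact hv1) hz0
    rw [ez2] at h3
    have h4 : ‖(starRingEnd ℂ) (deriv F (1 - (starRingEnd ℂ) z) / F (1 - (starRingEnd ℂ) z))‖ ≤ B := by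
      rw [RCLike.norm_conj]
      refine ld_bound H _ ?_ ?_
      · rw [Complex.sub_re, Complex.conj_re, ez1, Complex.one_re]; linarith
      · rw [Complex.sub_im, Complex.conj_im, ez2, Complex.one_im]; linarith
    have h5 : |lc v - Lg t| ≤ 3 + lc 1 := by
      have h6 := Lg_log ht (by have := hV1.1; have := hv.1; linarith : t / 2 - 1 ≤ v)
        (by have := hV2.2; have := hv.2; linarith)
      have h7 := H.hlc.low v hv1
      have h8 := H.hlc.slow 1 v le_rfl hv1
      rw [div_one] at h8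
      rw [abs_le] at h6 ⊢
      constructor <;> linarith [h6.1, h6.2]
    have h9 : D v + ((k * Lg t : ℝ) : ℂ) = (deriv F z / F z + ((k * lc v : ℝ) : ℂ) +
        (starRingEnd ℂ) (deriv F (1 - (starRingEnd ℂ) z) / F (1 - (starRingEnd ℂ) z))) -
        (starRingEnd ℂ) (deriv F (1 - (starRingEnd ℂ) z) / F (1 - (starRingEnd ℂ) z)) -
        ((k * (lc v - Lg t) : ℝ) : ℂ) := by
      simp only [hD]
      push_cast
      ring
    rw [h9]
    have h10 : ‖((k * (lc v - Lg t) : ℝ) : ℂ)‖ ≤ k * (3 + lc 1) := by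
      rw [Complex.norm_real, Real.norm_eq_abs, abs_mul, abs_of_nonneg hk0]
      exact mul_le_mul_of_nonneg_left h5 hk0
    refine (norm_sub_le _ _).trans ?_
    have h11 := (norm_sub_le (deriv F z / F z + ((k * lc v : ℝ) : ℂ) +
        (starRingEnd ℂ) (deriv F (1 - (starRingEnd ℂ) z) / F (1 - (starRingEnd ℂ) z)))
        ((starRingEnd ℂ) (deriv F (1 - (starRingEnd ℂ) z) / F (1 - (starRingEnd ℂ) z))))
    rw [hM]
    linarith
  -- shift
  have hfint : IntervalIntegrable (fun v => f (v - t)) volume V1 V2 :=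
    (hint.comp_sub_right t).intervalIntegrable
  by_cases hI : IntervalIntegrable (fun v => D v * f (v - t)) volume V1 V2
  swap
  · have h0 : (∫ v in V1..V2, deriv F (κ - 3 / 4 + v * I) / F (κ - 3 / 4 + v * I) *
        H2 l s κ (-(5 / 4) + ((v - t : ℝ) : ℂ) * I)) = 0 := intervalIntegral.integral_undef hI
    rw [h0]
    simpa using hRHS
  have hdec : (∫ v in V1..V2, D v * f (v - t)) =
      (∫ v in V1..V2, (D v + ((k * Lg t : ℝ) : ℂ)) * f (v - t)) -
        ((k * Lg t : ℝ) : ℂ) * ∫ v in V1..V2, f (v - t) := by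
    rw [← intervalIntegral.integral_const_mul, ← intervalIntegral.integral_sub]
    · refine intervalIntegral.integral_congr fun v _ => ?_
      ring
    · have : (fun v => (D v + ((k * Lg t : ℝ) : ℂ)) * f (v - t)) =
          fun v => D v * f (v - t) + ((k * Lg t : ℝ) : ℂ) * f (v - t) := by
        funext v; ring
      rw [this]
      exact hI.add (hfint.const_mul _)
    · exact hfint.const_mul _
  have hb1 : ‖∫ v in V1..V2, (D v + ((k * Lg t : ℝ) : ℂ)) * f (v - t)‖ ≤
      M * (2 * C₁ * Q) * Real.pi := by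
    have h3 : ‖∫ v in V1..V2, (D v + ((k * Lg t : ℝ) : ℂ)) * f (v - t)‖ ≤
        ∫ v in V1..V2, (M * (2 * C₁ * Q)) * (1 + (v - t) ^ 2)⁻¹ := by
      refine intervalIntegral.norm_integral_le_of_norm_le hVle
        (Filter.Eventually.of_forall fun v hv => ?_) ?_
      · rw [norm_mul, mul_assoc]
        exact mul_le_mul (hE v hv) (hK (v - t)) (norm_nonneg _) hM0
      · exact ((integrable_inv_one_add_sq.comp_sub_right t).const_mul _).intervalIntegrable
    refine h3.trans ?_
    rw [intervalIntegral.integral_const_mul,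
      intervalIntegral.integral_comp_sub_right (fun x : ℝ => (1 + x ^ 2)⁻¹) t,
      integral_inv_one_add_sq]
    refine mul_le_mul_of_nonneg_left ?_ (by positivity)
    have := Real.arctan_lt_pi_div_two (V2 - t)
    have := Real.neg_pi_div_two_lt_arctan (V1 - t)
    linarith
  have hb2 : (∫ v in V1..V2, f (v - t)).re ≤ Real.pi * c0 l s + 2 * (2 * C₁ * Q) / (t / 2) := by
    rw [intervalIntegral.integral_comp_sub_right f t, ← hre]
    exact re_int (by linarith) (by have := hV1.2; linarith) (by have := hV2.1; linarith) hint hK hK0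
  have hgoal : (∫ v in V1..V2, deriv F (κ - 3 / 4 + v * I) / F (κ - 3 / 4 + v * I) *
        H2 l s κ (-(5 / 4) + ((v - t : ℝ) : ℂ) * I)) = ∫ v in V1..V2, D v * f (v - t) := rfl
  rw [hgoal, hdec, Complex.sub_re, Complex.re_ofReal_mul]
  have hb3 := neg_le_of_abs_le ((Complex.abs_re_le_norm _).trans hb1)
  set X := (∫ v in V1..V2, (D v + ((k * Lg t : ℝ) : ℂ)) * f (v - t)).re with hX
  set Y := (∫ v in V1..V2, f (v - t)).re with hY
  have hpi := Real.pi_gt_three
  have hLgt : Lg t ≤ 2 * t := by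
    unfold Lg
    rw [abs_of_nonneg (by linarith : 0 ≤ t)]
    have := Real.log_le_sub_one_of_pos (by linarith : 0 < 3 + t)
    linarith
  have hkL : 0 ≤ k * Lg t := by positivity
  -- the main estimate
  have e1 : -(1 / (2 * Real.pi) * (X - k * Lg t * Y)) =
      (k * Lg t * Y - X) / (2 * Real.pi) := by
    field_simp
    ring
  rw [e1, div_le_iff₀ (by positivity)]
  have e2 : k * Lg t * Y ≤ k * Lg t * (Real.pi * c0 l s + 2 * (2 * C₁ * Q) / (t / 2)) :=
    mul_le_mul_of_nonneg_left hb2 hkL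
  have e3 : k * Lg t * (2 * (2 * C₁ * Q) / (t / 2)) ≤ 16 * (k * C₁ * Q) := by
    have : k * Lg t * (2 * (2 * C₁ * Q) / (t / 2)) = 8 * (k * C₁ * Q) * (Lg t / t) := by
      field_simp
      ring
    rw [this]
    have h3 : Lg t / t ≤ 2 := by
      rw [div_le_iff₀ (by linarith)]; exact hLgt
    have h4 : 0 ≤ 8 * (k * C₁ * Q) := by positivity
    nlinarith
  have e4 : (k * Lg t / 2 * c0 l s + (2 * C₁ * (2 * k + M) + 1) * Q) * (2 * Real.pi) =
      k * Lg t * (Real.pi * c0 l s) + 8 * (k * C₁ * Q) * Real.pi +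
        2 * (M * (2 * C₁ * Q) * Real.pi) + 2 * Q * Real.pi := by ring
  rw [e4]
  have e5 : 0 ≤ k * C₁ * Q := by positivity
  have e6 : 0 ≤ M * (2 * C₁ * Q) * Real.pi := by positivity
  have e7 : 0 ≤ 2 * Q * Real.pi := by positivity
  have e8 : 16 * (k * C₁ * Q) ≤ 8 * (k * C₁ * Q) * Real.pi := by nlinarith
  have e9 : k * Lg t * (Real.pi * c0 l s + 2 * (2 * C₁ * Q) / (t / 2)) =
      k * Lg t * (Real.pi * c0 l s) + k * Lg t * (2 * (2 * C₁ * Q) / (t / 2)) := by ring
  linarith

end Pool.Agent.N186.GW
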